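import Pool.Agent.H367.OS.GWu
import Pool.Agent.H367.OS.Fld

/-!
# The absolute Hodge conjecture over `ℚ̄` and one sequence of cubics over the integers

A relation `r` of size `m` is one of the equations `x_i x_j = x_l`, `x_i + x_j = x_l`, `x_i = 1` with
`i, j, l < m`; the relations are numbered, the number of `r` is `ν(r)` (`relNum`). Let `G_m` be the
following polynomial with integral coefficients (`univG ℤ m`). There are variables `x_i` and `z_ij` for
`i, j < m`, a variable `c_r` for every relation `r`, and variables `y_{r,l}` for all relations `r` and
`l < (m + 1) 2 ^ ν(r)`. The equations (`eqnG`) are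

  `z_ij - x_i x_j`,  `c_r ^ 2 - c_r`,  `c_r ρ_r`,  `(1 - c_r) y_{r,l}`,

where `ρ_r` is the linear polynomial `z_ij - x_l`, `x_i + x_j - x_l` or `x_i - 1` of the relation.
`G_m` is the sum of the equations multiplied by further variables `t_e`, one for each equation. It has
degree three. Let `C_m` be the affine cubic hypersurface `G_m = 1` (`cubG R m` over the ring `R`); it is
smooth over the integers.

For a smooth projective scheme `Y` over `ℚ` let `B^n(Y)` be the `ℚ`-vector space of the Hodge classes
of codimension `n` on `Y(ℂ)`. For the part `t` of the question (`deRham`: question Q1, `adic`: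
question Q2 for all `ℓ`) let `A^n(Y) ⊆ B^n(Y)` be the subspace of the Hodge classes `v` such that for
all `σ ∈ Aut(ℂ)` the conjugate class comes from a Hodge class `v_σ` on the conjugate variety. Both are
additive functors of the Chow motive of `Y` over `ℚ`: a correspondence `Γ` maps `v_σ` to a Hodge class
with the conjugate of `Γ v` as its image.

For a separated scheme `X` of finite type over `ℚ` let `W(X)` be the weight complex (Gillet, Soulé; a
complex of Chow motives over `ℚ` with rational coefficients, for the cohomology with compact supports;
`W(X) = h(X)` for smooth projective `X`), and put `A^{n,i}(X) = H^i(A^n(W(X)))` and `B^{n,i}(X) =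
H^i(B^n(W(X)))`. `BijAt (C t) Prod.fst n X` says that the maps `A^{n,i}(X) → B^{n,i}(X)` are
isomorphisms for this `n` and all `i`. For smooth projective `Y` it says that the part `t` of the
question has a positive answer for the Hodge classes of codimension `n` on `Y(ℂ)`. Every smooth
projective scheme `V` over `ℚ̄` is a union of connected components of `Y_ℚ̄` for a smooth projective
scheme `Y` over `ℚ`, and `Y_ℚ̄` is the union of conjugates of `V`. These facts, and the trivial
implication from varieties over `ℂ` to varieties over `ℚ̄ ⊂ ℂ`, are the hypothesis `Describes`.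

**Theorem.** Let `E_m` be the number of the equations, and for `N ∈ ℕ` let
`idx m n N = n + (m + 1) N + E_m - 1`.

(1) For both parts and every `n`: the statement of the question is true for the Hodge classes of
codimension `n` on all smooth projective schemes over `ℚ̄` if and only if the maps `A^{idx m n N,
i}(C_m) → B^{idx m n N, i}(C_m)` are isomorphisms for all `N` and `i`, for infinitely many `m`.

(2) This is true for all `n` if and only if the maps `A^{n, i}(C_m) → B^{n, i}(C_m)` are isomorphisms
for all `n` and `i`, for infinitely many `m`.

(3) If the question has a positive answer over `ℂ`, the maps in (2) are isomorphisms for all `m`, `n`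
and `i`.

(4) The hypersurfaces `C_m` decide the statements (`Decides`): for every affine scheme `Spec B` of
finite type over `ℚ` and all large `m` there is an `N` such that for `0 ≤ n ≤ m` the statement with
the index `n` for `Spec B` is equivalent to the one with the index `idx m n N` for `C_m`; and for
every separated scheme `X` of finite type and all large `m`, the statements for `C_m` imply the
statements for `X`.

(5) For `n ≤ 1` (by the Lefschetz theorem on `(1,1)`-classes) the maps with the indices `idx m n N` are
isomorphisms for `C_m`, for all `m ≥ 1` and `N`.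

(6) `G_m` has integral coefficients and degree at most three, and `C_m` is smooth over all rings.

The hypotheses are standard: localisation sequences, affine bundles and products with `𝔾_m`
(`IsWeightPair`); the weight complex of a scheme of dimension at most `d` consists of direct factors of
motives of smooth projective varieties of dimension at most `d`, so that the groups vanish outside of
the codimensions `0, …, d` (`PVanish`, `GenAt`).

Idea of the proof. The projection of `C_m` to the affine space with the coordinates `x, z, c, y` is an
affine bundle over the complement of the zero set `W_m` of the equations. The scheme `W_m` is the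
disjoint union, over all sets `s` of relations (`c_r = 1` for `r ∈ s` and `c_r = 0` for the others), of
the products `X_s × 𝔸 ^ ((m + 1) N(s))`, where `X_s` is the affine scheme defined by the relations in
`s` and `N(s) = ∑_{r ∈ s} 2 ^ ν(r)`. The numbers `N(s)` are different, and the dimension of `X_s` is at
most `m`. So the invariant of `W_m` with the index `q + (m + 1) N(s)`, `0 ≤ q ≤ m`, is the invariant of
`X_s` with the index `q`; the other components do not contribute. Every affine scheme of finite type
over a prime field is an `X_s`, for all large `m`.

The universal system of relations is the one of helper854 (`Pool.Agent.H854.SQ`).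
-/

set_option autoImplicit false

open CategoryTheory CategoryTheory.Limits AlgebraicGeometry Pool.Agent.Y116.UV Pool.Agent.Z125.UN
  Pool.Agent.Q193.LT Pool.Agent.Q49.WU Pool.Agent.H854.SQ Pool.Agent.H367.OS

universe w w'



namespace Pool.Agent.Results.MP_e2e4f5_ag.OneSequenceOverTheIntegers

/-- The two parts of the question: `deRham` for Q1 and `adic` for Q2. -/
inductive Part
  | deRham
  | adic

/-- The Hodge classes on the smooth projective schemes over `F` (a subfield of `ℂ`), and the subspaces of
the Hodge classes with conjugates which are images of Hodge classes. -/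
structure HodgeData (F : Type) [Field F] where
  /-- the Hodge classes of codimension `r` on `X(ℂ)` -/
  H : ℕ → Sch F → ModuleCat.{w'} ℚ
  /-- the Hodge classes such that for all `σ` the conjugate class is the image of a Hodge class of the
  conjugate variety -/
  abs : Part → ∀ (r : ℕ) (X : Sch F), Submodule ℚ (H r X)

/-- The statement of the part `t` of the question for the Hodge classes of codimension `r` on `X`. -/
def HoldsIn {F : Type} [Field F] (D : HodgeData.{w'} F) (t : Part) (r : ℕ) (X : Sch F) : Prop :=
  ∀ v : D.H r X, v ∈ D.abs t r X

/-- The part `t` of the question for all smooth projective schemes over the field `F`. -/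
def Question {F : Type} [Field F] (D : HodgeData.{w'} F) (t : Part) : Prop :=
  ∀ X : Sch F, SmoothProj X → ∀ r : ℕ, HoldsIn D t r X

/-- The relation of the questions over `ℂ` and over `ℚ̄` with the pairs `A^n ⊆ B^n`. -/
structure Describes (D : ∀ (F : Type) [Field F], HodgeData.{w'} F)
    (C : Part → PairData.{w} ℚ (ℤ × ℤ) ℚ) : Prop where
  descent : ∀ t, Question (D ℂ) t → Question (D (AlgebraicClosure ℚ)) t
  classes : ∀ (t : Part) (n : ℕ), FromQalg (AlgebraicClosure ℚ)
    (HoldsIn (D (AlgebraicClosure ℚ)) t n) fun Y => BijAt (C t) Prod.fst n Y

/-- **The absolute Hodge conjecture over `ℚ̄` and one sequence of cubic hypersurfaces over the integers.**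
See the explanations above. Known cases that are used: the point, and the indices `N ≤ 1` (divisors). -/
theorem result {D : ∀ (F : Type) [Field F], HodgeData.{w'} F}
    {C : Part → PairData.{w} ℚ (ℤ × ℤ) ℚ} (h : Describes D C) (weight : ∀ t, IsWeightPair (C t))
    (vanish : ∀ t, PVanish (C t) Prod.fst) (generated : ∀ t, GenAt (C t) Prod.fst)
    (point : ∀ t, BijAll (C t) (aff ℚ ℚ))
    (divisors : ∀ (t : Part) (N : ℤ), N ≤ 1 → ∀ Y : Sch ℚ, SmoothProj Y →
      BijAt (C t) Prod.fst N Y) :
    (∀ t : Part,
      (∀ n : ℕ, (∀ V : Sch (AlgebraicClosure ℚ), SmoothProj V →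
          HoldsIn (D (AlgebraicClosure ℚ)) t n V) ↔
        ∃ᶠ m in Filter.atTop, ∀ N : ℕ, BijAt (C t) Prod.fst (idx m n N) (cubG ℚ m)) ∧
      (Question (D (AlgebraicClosure ℚ)) t ↔
        ∃ᶠ m in Filter.atTop, ∀ n : ℤ, BijAt (C t) Prod.fst n (cubG ℚ m)) ∧
      (Question (D ℂ) t → ∀ (m : ℕ) (n : ℤ), BijAt (C t) Prod.fst n (cubG ℚ m)) ∧
      Decides (BijAt (C t) Prod.fst) ∧
      (∀ n : ℕ, n ≤ 1 → ∀ m, 1 ≤ m → ∀ N : ℕ,
        BijAt (C t) Prod.fst (idx m n N) (cubG ℚ m))) ∧
    ∀ m : ℕ, (univG ℤ m).totalDegree ≤ 3 ∧
      ∀ (R : Type) [CommRing R], MvPolynomial.map (Int.castRingHom R) (univG ℤ m) = univG R m ∧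
        Smooth (cubG R m).hom := by
  refine ⟨fun t => ?_, cubG_facts⟩
  have hd : Decides (BijAt (C t) Prod.fst) :=
    decides_pair isPrimeField_rat (generated t) (weight t) graded_weight (vanish t) (point t)
  have h1 : (∀ Y : Sch ℚ, SmoothProj Y → ∀ n : ℤ, BijAt (C t) Prod.fst n Y) ↔
      ∃ᶠ m in Filter.atTop, ∀ n : ℤ, BijAt (C t) Prod.fst n (cubG ℚ m) := hd.all.out 1 0
  have h3 : (∀ Y : Sch ℚ, SmoothProj Y → ∀ n : ℤ, BijAt (C t) Prod.fst n Y) ↔
      ∀ X : Sch ℚ, FT True X → ∀ n : ℤ, BijAt (C t) Prod.fst n X := hd.all.out 1 2
  have h2 : Question (D (AlgebraicClosure ℚ)) t →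
      ∀ Y : Sch ℚ, SmoothProj Y → ∀ n : ℤ, BijAt (C t) Prod.fst n Y := by
    intro g Y hY n
    rcases le_or_gt n 1 with hn | hn
    · exact divisors t n hn Y hY
    · lift n to ℕ using by omega
      exact (h.classes t n).all.mp (fun V hV => g V hV n) Y hY
  refine ⟨fun n => (h.classes t n).all.trans ((hd.index n).out 1 0),
    Iff.trans ⟨h2, fun g V hV n => (h.classes t n).all.mpr (fun Y hY => g Y hY n) V hV⟩ h1,
    fun g m n => h3.mp (h2 (h.descent t g)) _ (ft_aff True) n, hd, fun n hn m hm N => ?_⟩
  exact known_indices (graduated_pair (weight t) graded_weight (vanish t) (point t))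
    (generated t n) (divisors t n (by exact_mod_cast hn)) (hn.trans hm) N

end Pool.Agent.Results.MP_e2e4f5_ag.OneSequenceOverTheIntegers
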