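import Pool.Agent.H842.PA.Main

/-!
# Conjugates of Hodge classes on powers of a variety: polynomial bounds

Let `X` be an **arbitrary** smooth projective variety over an algebraically closed field `k` which is
embedded in the complex numbers, and `b` the sum of its Betti numbers. Put

`N = 6 b ^ 3 (log₂ b + 3)`.

Hodge endomorphisms of `H(X)`, the sum of the `H^i(X)`, are rational endomorphisms which map classes of
type `(p, q)` to sums of classes of types `(p + m, q + m)`. A Hodge class on a power of `X` is called
*neutral* if it is killed by the derivations given by the central skew Hodge endomorphisms of `H(X)`.
If the centre of the algebra of Hodge endomorphisms is a product of totally real fields, then there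
are no such endomorphisms besides 0 and all classes are neutral (`NoTypeFour`); in general all Hodge
classes on `X × X` are neutral.

**Theorem.**

1. There are at most `2 b ^ 2 (log₂ b + 3)` neutral Hodge classes on `X ^ N` such that, if these few
   classes and the neutral Hodge classes on `X ^ 4` are absolutely Hodge, then the neutral Hodge
   classes on all powers of `X` are absolutely Hodge. The classes are chosen once for all families
   `D` of conjugates.
2. If the neutral Hodge classes on the single variety `X ^ N` are absolutely Hodge, then they are
   absolutely Hodge on all the powers of `X`.
3. If the neutral Hodge classes on `X ^ 4` are absolutely Hodge, then on every even power of `X` the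
   dimension of the space of neutral Hodge classes is at most `(4 b) ^ (2 b ^ 2)` times the dimension
   of the space of the neutral absolutely Hodge classes.
4. If there are no central skew Hodge endomorphisms besides 0 and all Hodge classes on `X ^ N` are
   absolutely Hodge, then all Hodge classes on all powers of `X` are absolutely Hodge.

The numbers depend only on `b`. Compare with the library: the results for powers there
(`FourthPowerIndex`, `OnePowerH1`) have conditions on the centre, or on the cohomology, or
larger powers. Here the bound is polynomial, for the neutral classes of an arbitrary `X`.

Part Q1 is the case of a family `D` with one conjugate theory for each automorphism `σ` of the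
field of complex numbers, with the comparison given by de Rham cohomology; part Q2 is the case of
one conjugate theory for each pair `(σ, ℓ)`, with the comparison given by `ℓ`-adic cohomology. A
Hodge theory `T` is a Weil cohomology theory with rational coefficients and a
Hodge decomposition (`HodgeTheory` in the file `Pool.Agent.Y121.AHS.Defs`); in the intended use it
is the singular cohomology with rational coefficients of the varieties `ρ X` for one embedding `ρ` of
`k` into the complex numbers, and `NonnegTypes`, `HodgeSymmetric` and `IsPolarisable` are classical.
The structure `Conj T` is a family of Hodge theories `T' i` (those of the other embeddings) with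
comparisons: a comparison is a relation `c'` corresponds to `c` between rational classes of the two
theories which is stable under sums, rational multiples, products, pull-backs and push-forwards, and
under which the classes of an algebraic cycle correspond (in the intended case: the comparison
isomorphism, or all of them, map `c` to `c'`, where the Tate twist is taken into account). A class is
absolutely Hodge (`IsAbs`) if it is Hodge and corresponds to a Hodge class in each of the other
theories.

The proof. Let `𝒢` be the group generated by the conjugates of the action of the torus on
`V = H(X, ℂ)` given by the Hodge decomposition, `ℋ` the stabiliser of the neutral invariants (it is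
generated by `𝒢` and a torus), `K₀` its compact form, and `K` the compact group of the unitary matrices
which fix the tensors given by absolutely Hodge classes (by positivity of a polarisation, which is
absolutely Hodge since it is a Hodge class on `X ^ 2`, they are the invariants of `K`). The fourth
tensor power determines the Lie algebra, so an element of `K` with `Re tr ≥ b - 1/4` belongs to
`K₀`. A volume estimate by packing for the Haar measure gives `[K : K₀] ≤ (4 b) ^ (2 b ^ 2)`, and
each new invariant halves the index. If `K ≠ K₀`, then the average of the character of `V^⊗N` over
`K₀` is more than its average over `K`, since outside of the ball the character is at most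
`(b - 1/4) ^ N`; for `N ≥ 6 b ^ 3 (log₂ b + 3)` this contradicts the equality of the invariants in
`V^⊗N`.
-/

open CategoryTheory AlgebraicGeometry

universe u

namespace Pool.Agent.Results.MP_e2e4f5_ag.PolynomialPower

open Pool.Agent.H914 Pool.Agent.H914.VarClass Pool.Agent.H914.VarClass.Obj
  Pool.Agent.H914.WeilCohomology Pool.Agent.Y121.AHS Pool.Agent.R940 Pool.Agent.R914.UN
open Pool.Agent.H842.PA (Conj IsAbs AllAbs NeutralAbs NoTypeFour FewSuffice neutralDim spanDim
  polyBound numBound idxBound)
open Pool.Agent.Y163 (pw)

theorem result {k : Type u} [Field k] {𝒱 : VarClass k} {ops : CycleOps 𝒱} (T : HodgeTheory ops)
    (hT : NonnegTypes T) (X : 𝒱.Obj) (hX : HodgeSymmetric T X) (hP : IsPolarisable T X) (b N : ℕ)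
    (hb : b = spanDim T X Set.univ) (hN : N = polyBound b) :
    FewSuffice T X (N - 1) (numBound b) ∧
    ∀ D : Conj T,
      (NeutralAbs D X (N - 1) → ∀ n : ℕ, NeutralAbs D X n) ∧
      (NeutralAbs D X 3 → ∀ n : ℕ, Even (n + 1) →
        neutralDim T X n (IsHodge T (pw X n)) ≤
          idxBound b * neutralDim T X n (IsAbs D (pw X n))) ∧
      (NoTypeFour T X → AllAbs D (pw X (N - 1)) → ∀ n : ℕ, AllAbs D (pw X n)) :=
  Pool.Agent.H842.PA.abs_main hT hX hP b N hb hN

end Pool.Agent.Results.MP_e2e4f5_ag.PolynomialPower
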