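import Mathlib
import Pool.Agent.H855.HG.GoursatMax

/-!
# The conjugates of the Hodge classes on `Z^t × (P × Y)^s`: factors of CM type and factors with semisimple
Hodge groups

We consider question 1 (de Rham part) and question 2 (ℓ-adic part) for products. Let `Y` be **any**
smooth projective complex variety. The theorem says that only few varieties have something to do with
`Y`, among the varieties of CM type and among the varieties with a semisimple Hodge group, and that for
the products of all the other ones with `Y` the questions are equivalent to the questions for `Y`.

**The Hodge group.** The Hodge operator on the cohomology of `Y` is the multiplication by `p - q` on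
`H^(p, q)` (`HodgeSpace`). Let `T` be its matrix in a rational basis. The smallest complex space of
matrices which contains all conjugates `σ⁻¹ T` under the automorphisms `σ` of `ℂ` and the commutators of
its elements is **the Lie algebra `g` of the Hodge group of `Y`**, with complex coefficients
(`HodgeSpace.lie`); `[g, g]` is `HodgeSpace.comm`. The Lie algebra of the Hodge group of `X × Y` is a
space of pairs of matrices (`pairLie`).

**Independent varieties.** `X` and `Y` are independent (`AreIndependent`) if the Lie algebra of the
Hodge group of `X × Y` is the product of the Lie algebras of the Hodge groups of `X` and `Y`. The Hodge
group of `X` is semisimple if and only if `g = [g, g]` for its Lie algebra (`IsPerfect`), because Hodge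
groups are reductive.

**The space of the characters.** Let `V` be the space of the rational functions `σ ↦ l (σ⁻¹ T)` on the
automorphisms of `ℂ`, where `l` is a linear function on the matrices which is zero on `[g, g]`
(`charSpace`), for the variety `Y`. For a CM field `F` let `V(F)` be the space of the odd real functions
`f` on the complex embeddings of `F` such that `σ ↦ f (σ φ)` is in `V` for all `φ` (`excSpace`): the
exceptional space of `F`.

**The theorem.** Let `Y` be **any** smooth projective variety, and let `X i`, `i ∈ I`, be **any** family
of smooth projective varieties with semisimple Hodge groups (it may be infinite, and no relation between
the `X i` is supposed or excluded).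

1. The exceptional spaces are small (`CharactersAreSmall`): `dim V + dim [g, g] ≤ dim g`, `dim V(F) ≤
   dim V` for all CM fields `F`, and `∑ m k ≤ dim V` for pairwise unrelated CM fields `F k` with
   `V(F k) ≠ 0`, where `m k` is a lower bound for the dimensions of the nonzero stable spaces of odd
   rational functions on the embeddings of `F k` (for instance `m k = 1`).
2. There is a **finite set `E` of indices with at most `dim [g, g] / 3` elements**, the `X e`, `e ∈ E`,
   are pairwise independent, and none of them is independent of `Y`, such that **every `X i` which is
   independent of the varieties `X e`, `e ∈ E`, is independent of `Y`**. More generally this is true for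
   all products `P` of pairwise independent `X i` which are independent of the `X e`. For such a `P`, for
   **all `r` and `s`**
   * the Hodge classes on `P^r × Y^s` are the sums of products of Hodge classes on `P^r` and `Y^s`
     (`HodgeOnAllPowers`);
   * **question 1 for all the products `P^r × Y^s` is equivalent to question 1 for all the powers `P^r`
     and `Y^s`; the same is true for question 2, and for Deligne's form, where all components are
     considered at once** (`AbsoluteOnAllPowers`, for all families `T` of components: `T` with the de
     Rham component only, `R t = ℂ`, is question 1; `T` with the ℓ-adic component only, `R t = ℚ_ℓ`, is
     question 2; and for all sets `S` of automorphisms of `ℂ`, for instance one `σ`); if the property is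
     true for `P^r`, the classes on `P^r × Y^s` with the property are the sums of products of Hodge
     classes on `P^r` and classes with the property on `Y^s`.
3. Let `x j` be integral odd functions on the embeddings of CM fields `L j` (for instance CM types), such
   that no nonzero vector of the spaces `V(L j)` is a combination of the `x j` (`IsComb`), and let `Z` be
   **any** variety of CM type whose types are generated by the `x j` (`ForAllOutside`, see below). Then,
   for `P` as above (for instance `P` a point, for the empty product), the Hodge classes on **all the
   products `Z^t × (P × Y)^s`** are the sums of products of Hodge classes on `Z^t` and `(P × Y)^s`, and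
   **question 1 (question 2, Deligne's form) for all of them is equivalent to the question for all the
   `Z^t` and all the `(P × Y)^s`**. The spaces `V(L j)` depend only on `Y`, and not on `P`.

If `Z` and `P` are abelian varieties (or if their motives are in the category generated by abelian
varieties) the conditions for `Z` and `P` are true by the theorem of Deligne. So **question 1 (and 2) for
all the `Z^t × (P × Y)^s` is equivalent to question 1 (and 2) for the powers of `Y`.** (Some exceptions
are necessary: `Y` itself can be a variety of CM type or a variety with a semisimple Hodge group.)

**Types and CM type.** A vector `w` of `H(Z, ℂ)` has the types `d` if for each automorphism `σ` of `ℂ`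
the conjugate `σ w` is a sum of classes of types `(p, q)` with `p - q = d σ` (`HasTypes`). `Z` is of CM
type (with a commutative Mumford-Tate group) if such vectors span `H(Z, ℂ)` (`IsOfCMType`). The types of
`Z` are generated by the `x j` (`IsGeneratedBy`) if for all vectors with types `d` a multiple of `d` is a
sum `σ ↦ ∑ m (j, ψ) * x j (σ ψ)`. For instance `Z` can be **any** abelian variety isogenous to a product
of powers of the abelian varieties of CM types `(L j, Φ j)`, or a Fermat hypersurface; every `Z` of CM
type is obtained in this way. A vector `v` on the embeddings of a field `F` is a combination of the `x j`
if it is the sum of the images of the `x j` under equivariant maps: `v φ = ∑ t φ (j, ψ) * x j ψ` with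
rational numbers `t φ (j, ψ)` which are invariant under the automorphisms of `ℂ`, odd in `ψ`, and zero if
the fields `F` and `L j` are unrelated.

**Relation.** The library result `FewExceptionalFactors` on this page is about jointly independent
families (pairwise independent factors with semisimple Hodge groups and elliptic curves with CM by
different fields), with at most `dim H(Y) / 2` exceptions. Here the varieties `Z` of CM type are arbitrary
(all CM fields, all CM types, no independence between the factors), with exceptional spaces of total
dimension at most the dimension of the centre of the Hodge group; the family `X i` is arbitrary, and all
members which are independent of the few exceptional ones are independent of `Y`. The results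
`AllPowersWithCM` of this run (for instance on MP_0da4e0_ag) contain the case `P = point` of part 3. For
two given varieties with semisimple Hodge groups there are criteria for independence (Goursat, Imai,
Hazama, Moonen-Zarhin).

The proof. The elements `N` of `g` with `(0, N)` in the Lie algebra of `X i × Y` are an ideal `J i` of
`g` (`idl`). Since `X i` is semisimple, `g = [g, g] + J i`, and if `J i = g` then `X i` and `Y` are
independent (`independent_of_zero`). If `X i` and `X k` are independent then `g = J i + J k`
(`lie_le_sup_idl`). By the Chinese remainder theorem, for pairwise independent `X i`, `g` maps onto the
product of the quotients `g / J i`, which are perfect Lie algebras, hence of dimension at least 3 if they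
are not zero; this bounds the number of pairwise independent `X i` which are not independent of `Y`
(`card_le`), and `E` is a maximal set of such indices (`exists_maximal`). The products: `perfect_prod`,
`independent_prod`. The Hodge classes on `P^r × Y^s` are killed by the derivations given by all the
elements of the Lie algebra of the Hodge group of `P × Y`, which contains `(T, 0)` and `(0, T)`, so that
their components are Hodge classes (`hodgeOfProducts_independent`).

Part 3. The characters of `P × Y` are characters of `Y` (`charSpace_prod_le`), so that we can suppose that
`P` is a point. A vector of the cohomology of `Y^s` with types `d` is an eigenvector of the derivations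
given by the elements of `g`, and `d` is in `V` (`type_mem_charSpace`). Take a basis `e k` of `H(Z^t, ℂ)`
of vectors with types `d k`, and write a Hodge class on `Z^t × Y^s` as `∑ e k ⊗ y k`; the `y k` have the
types `- d k`. Some multiple of `d k` is a sum of values `x j (σ ψ)`. If it is not zero there is a vector
`v ≠ 0` on the embeddings of one of the fields `L j` whose translates are combinations of the translates
of `- d k`, so that `v` is in `V(L j)`, and `v` is a combination of the `x j`, a contradiction. So
`d k = 0` or `y k = 0` for all `k`.
-/

set_option autoImplicit false

namespace Pool.Agent.Results.MP_e2e4f5_ag.SemisimpleAndCMFactors

open NumberField Module Pool.Agent.H855.HG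

/-- **For every smooth projective variety `Y` and every family of varieties `X i` with semisimple Hodge
groups there are at most `dim [g, g] / 3` exceptional `X e`, such that all the products `P` of pairwise
independent `X i` which are independent of the `X e` are independent of `Y`; questions 1 and 2 for all the
`P^r × Y^s` are equivalent to the questions for the `P^r` and the `Y^s`; and the same for
`Z^t × (P × Y)^s`, for all `Z` of CM type outside of the small exceptional spaces of `Y`.** -/
theorem result (B : Type) [Fintype B] (Y : HodgeSpace B) (I : Type) (A : I → Type)
    [∀ i, Fintype (A i)] (X : ∀ i, HodgeSpace (A i)) (hX : ∀ i, (X i).IsPerfect) :
    CharactersAreSmall Y ∧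
      ∃ E : Finset I, 3 * E.card ≤ finrank ℂ Y.comm ∧ (∀ e ∈ E, ¬ AreIndependent (X e) Y) ∧
        (∀ e ∈ E, ∀ k ∈ E, e ≠ k → AreIndependent (X e) (X k)) ∧
        ∀ l : List I, (l.Pairwise fun i k => AreIndependent (X i) (X k)) →
          (∀ i ∈ l, ∀ e ∈ E, AreIndependent (X i) (X e)) →
          AreIndependent (prodOver X l) Y ∧
          (HodgeOnAllPowers (prodOver X l) Y ∧ AbsoluteOnAllPowers (prodOver X l) Y) ∧
          ForAllOutside Y.charSpace (fun _ _ Z => HodgeOnAllPowers Z ((prodOver X l).prod Y) ∧
            AbsoluteOnAllPowers Z ((prodOver X l).prod Y)) :=
  ⟨charactersAreSmall Y, fewExceptional Y A X hX⟩

end Pool.Agent.Results.MP_e2e4f5_ag.SemisimpleAndCMFactors
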